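import Pool.Agent.E8helper43.ER.Ram

set_option autoImplicit false

/-!
# One-point extensions of Ramsey sets
-/

namespace Pool.Agent.E8helper43.ER

open Finset

/-- a set of points is Ramsey -/
def IsRamsey {m : ℕ} (S : Set (Eu m)) : Prop :=
  ∀ r : ℕ, ∃ N : ℕ, ∀ c : Eu N → Fin r, ∃ g : S → Eu N, Isometry g ∧ ∀ x y : S, c (g x) = c (g y)

theorem isRamsey_range {ι : Type} {m : ℕ} (φ : ι → Eu m) :
    IsRamsey (Set.range φ) ↔ Ram fun i j => dist (φ i) (φ j) ^ 2 := by
  constructor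
  · intro h r
    obtain ⟨N, hN⟩ := h r
    refine ⟨N, fun c => ?_⟩
    obtain ⟨g, h1, h2⟩ := hN c
    refine ⟨fun i => g ⟨φ i, i, rfl⟩, fun i j => ?_, fun i j => h2 _ _⟩
    rw [h1.dist_eq]
    rfl
  · intro h r
    obtain ⟨N, hN⟩ := h r
    refine ⟨N, fun c => ?_⟩
    obtain ⟨g, h1, h2⟩ := hN c
    have ho : ∀ y : Set.range φ, ∃ i, φ i = y := fun y => y.2
    choose o ho using ho
    refine ⟨fun y => g (o y), ?_, fun x y => h2 _ _⟩
    refine Isometry.of_dist_eq fun x y => ?_
    have h3 : dist (g (o x)) (g (o y)) ^ 2 = dist (φ (o x)) (φ (o y)) ^ 2 := h1 (o x) (o y)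
    rw [ho, ho] at h3
    exact (pow_left_inj₀ dist_nonneg dist_nonneg two_ne_zero).1 h3

/-- the hyperplane -/
noncomputable def inc {d : ℕ} (x : Eu d) : Eu (d + 1) := WithLp.toLp 2 (Fin.snoc (fun i => x i) 0)

theorem inc_last {d : ℕ} (x : Eu d) : inc x (Fin.last d) = 0 := by
  show Fin.snoc (α := fun _ => ℝ) (fun i => x i) 0 (Fin.last d) = 0
  rw [Fin.snoc_last]

theorem inc_castSucc {d : ℕ} (x : Eu d) (i : Fin d) : inc x (Fin.castSucc i) = x i := by
  show Fin.snoc (α := fun _ => ℝ) (fun i => x i) 0 (Fin.castSucc i) = x i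
  rw [Fin.snoc_castSucc]

/-- the orthogonal projection onto the hyperplane -/
noncomputable def pro {d : ℕ} (z : Eu (d + 1)) : Eu d := WithLp.toLp 2 fun i => z (Fin.castSucc i)

theorem pro_apply {d : ℕ} (z : Eu (d + 1)) (i : Fin d) : pro z i = z (Fin.castSucc i) := rfl

theorem pro_inc {d : ℕ} (x : Eu d) : pro (inc x) = x := by
  ext i
  rw [pro_apply, inc_castSucc]

/-- the set `X` in the hyperplane together with the point `z` -/
def ext {d : ℕ} (X : Set (Eu d)) (z : Eu (d + 1)) : Set (Eu (d + 1)) :=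
  {y | y (Fin.last d) = 0 ∧ ∃ x ∈ X, ∀ i : Fin d, y (Fin.castSucc i) = x i} ∪ {z}

/-- enumeration of the set -/
noncomputable def emb {d : ℕ} (X : Set (Eu d)) (z : Eu (d + 1)) : Option X → Eu (d + 1) :=
  fun o => o.elim z fun x => inc x.1

theorem range_emb {d : ℕ} (X : Set (Eu d)) (z : Eu (d + 1)) : Set.range (emb X z) = ext X z := by
  apply Set.eq_of_subset_of_subset
  · rintro _ ⟨o, rfl⟩
    cases o with
    | none => exact Or.inr rfl
    | some x => exact Or.inl ⟨inc_last _, x.1, x.2, fun i => inc_castSucc _ i⟩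
  · rintro y (⟨h1, x, hx, h2⟩ | rfl)
    · refine ⟨some ⟨x, hx⟩, ?_⟩
      show inc x = y
      ext i
      refine Fin.lastCases ?_ (fun j => ?_) i
      · rw [inc_last, h1]
      · rw [inc_castSucc, h2]
    · exact ⟨none, rfl⟩

theorem nsq {n : ℕ} (x : Eu n) : ‖x‖ ^ 2 = ∑ i, x i ^ 2 := by
  have := dist_sq x 0
  rw [dist_zero_right] at this
  rw [this]
  refine sum_congr rfl fun i _ => ?_
  simp

/-- the distance of `z` from a point of the hyperplane -/
theorem dist_inc {d : ℕ} (x : Eu d) (z : Eu (d + 1)) :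
    dist (inc x) z ^ 2 = ∑ i, x i ^ 2 - 2 * ∑ i, x i * pro z i + ‖z‖ ^ 2 := by
  rw [dist_sq, nsq, Fin.sum_univ_castSucc, Fin.sum_univ_castSucc, inc_last]
  have h1 : ∀ i : Fin d, (inc x (Fin.castSucc i) - z (Fin.castSucc i)) ^ 2 =
      x i ^ 2 - 2 * (x i * pro z i) + z (Fin.castSucc i) ^ 2 := by
    intro i
    rw [inc_castSucc, pro_apply]
    ring
  rw [sum_congr rfl fun i _ => h1 i, sum_add_distrib, sum_sub_distrib, mul_sum]
  ring

theorem dist_inc_inc {d : ℕ} (x y : Eu d) : dist (inc x) (inc y) ^ 2 = dist x y ^ 2 := by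
  rw [dist_sq, dist_sq, Fin.sum_univ_castSucc, inc_last, inc_last]
  simp only [inc_castSucc]
  ring

/-- **Convexity.** -/
theorem convexity {d : ℕ} {X : Set (Eu d)} (hX : X.Finite) {κ : Type} [Fintype κ] (w : κ → ℝ)
    (zz : κ → Eu (d + 1)) (hw : ∀ k, 0 ≤ w k) (hw1 : ∑ k, w k = 1)
    (hR : ∀ k, IsRamsey (ext X (zz k))) (z : Eu (d + 1)) (hp : pro z = ∑ k, w k • pro (zz k))
    (hz : ∑ k, w k * ‖zz k‖ ^ 2 ≤ ‖z‖ ^ 2) : IsRamsey (ext X z) := by
  have := hX.to_subtype
  have : Finite (Option X) := inferInstance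
  have h1 : ∀ k, Ram fun i j => dist (emb X (zz k) i) (emb X (zz k) j) ^ 2 := by
    intro k
    rw [← isRamsey_range, range_emb]
    exact hR k
  set t : ℝ := ‖z‖ ^ 2 - ∑ k, w k * ‖zz k‖ ^ 2 with ht
  have ht0 : 0 ≤ t := by linarith
  have h2 : Ram fun i j : Option X => if i.isSome = j.isSome then (0 : ℝ) else t :=
    (Ram.two ht0).comp fun i : Option X => i.isSome
  have h3 := (Ram.sum univ w (fun k i j => dist (emb X (zz k) i) (emb X (zz k) j) ^ 2)
    (fun k _ => hw k) fun k _ => h1 k).add h2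
  rw [← range_emb, isRamsey_range]
  have hpi : ∀ i, pro z i = ∑ k, w k * pro (zz k) i := by
    intro i
    rw [hp]
    simp [Finset.sum_apply]
  have h4 : ∀ x : Eu d, ∑ k, w k * dist (inc x) (zz k) ^ 2 + t = dist (inc x) z ^ 2 := by
    intro x
    have e1 : ∀ k, w k * dist (inc x) (zz k) ^ 2 = w k * ∑ i, x i ^ 2 -
        2 * ∑ i, x i * (w k * pro (zz k) i) + w k * ‖zz k‖ ^ 2 := by
      intro k
      rw [dist_inc]
      have e2 : ∑ i, x i * (w k * pro (zz k) i) = w k * ∑ i, x i * pro (zz k) i := by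
        rw [mul_sum]
        exact sum_congr rfl fun i _ => by ring
      rw [e2]
      ring
    rw [sum_congr rfl fun k _ => e1 k, sum_add_distrib, sum_sub_distrib, ← sum_mul, hw1, ← mul_sum,
      sum_comm, dist_inc]
    have e3 : ∑ i, ∑ k, x i * (w k * pro (zz k) i) = ∑ i, x i * pro z i := by
      refine sum_congr rfl fun i _ => ?_
      rw [hpi, mul_sum]
    rw [e3]
    linarith
  have h5 : (fun i j : Option X => ∑ k, w k * dist (emb X (zz k) i) (emb X (zz k) j) ^ 2 +
      if i.isSome = j.isSome then (0 : ℝ) else t) =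
      fun i j => dist (emb X z i) (emb X z j) ^ 2 := by
    funext i j
    cases i with
    | none =>
      cases j with
      | none => simp [emb]
      | some y =>
        show ∑ k, w k * dist (zz k) (inc y.1) ^ 2 + t = dist z (inc y.1) ^ 2
        simp only [dist_comm _ (inc y.1)]
        exact h4 _
    | some x =>
      cases j with
      | none => exact h4 _
      | some y =>
        show ∑ k, w k * dist (inc x.1) (inc y.1) ^ 2 + 0 = dist (inc x.1) (inc y.1) ^ 2
        rw [← sum_mul, hw1]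
        ring
  rw [← h5]
  exact h3

/-- points of `X` -/
theorem ext_mem {d : ℕ} {X : Set (Eu d)} (hR : IsRamsey X) {x : Eu d} (hx : x ∈ X) :
    IsRamsey (ext X (inc x)) := by
  have h1 : Ram fun i j : X => dist (i : Eu d) j ^ 2 := by
    rw [← isRamsey_range (fun i : X => (i : Eu d)), Subtype.range_coe]
    exact hR
  rw [← range_emb, isRamsey_range]
  let q : Option X → X := fun o => o.elim ⟨x, hx⟩ id
  have hq : ∀ o, inc (q o : Eu d) = emb X (inc x) o := by
    intro o
    cases o with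
    | none => rfl
    | some y => rfl
  have h2 := h1.comp q
  have h3 : (fun i j : Option X => dist (q i : Eu d) (q j) ^ 2) =
      fun i j => dist (emb X (inc x) i) (emb X (inc x) j) ^ 2 := by
    funext i j
    rw [← hq, ← hq, dist_inc_inc]
  rw [← h3]
  exact h2

/-- **Points outside the circumsphere, above the convex hull.** -/
theorem sphere_case {d : ℕ} {X : Set (Eu d)} (hX : X.Finite) (hR : IsRamsey X) (c : Eu d) (ρ : ℝ)
    (hc : ∀ x ∈ X, dist x c = ρ) (z : Eu (d + 1)) (hp : pro z ∈ convexHull ℝ X)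
    (hd : ρ ≤ dist z (inc c)) : IsRamsey (ext X z) := by
  have hne : X.Nonempty := by
    rw [← convexHull_nonempty_iff (𝕜 := ℝ)]
    exact ⟨_, hp⟩
  have hρ : 0 ≤ ρ := by
    obtain ⟨x, hx⟩ := hne
    rw [← hc x hx]
    exact dist_nonneg
  have hp' : pro z ∈ convexHull ℝ (hX.toFinset : Set (Eu d)) := by
    rw [hX.coe_toFinset]
    exact hp
  rw [Finset.mem_convexHull'] at hp'
  obtain ⟨w, hw, hw1, hwp⟩ := hp'
  refine convexity hX (κ := hX.toFinset) (fun x => w x) (fun x => inc x) (fun x => hw x x.2) ?_ ?_ z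
    ?_ ?_
  · rw [Finset.sum_coe_sort hX.toFinset w]
    exact hw1
  · intro x
    exact ext_mem hR (hX.mem_toFinset.1 x.2)
  · simp only [pro_inc]
    rw [Finset.sum_coe_sort hX.toFinset fun x => w x • x]
    exact hwp.symm
  · have h1 : ∀ x ∈ X, ‖inc x‖ ^ 2 = ρ ^ 2 + 2 * ∑ i, x i * c i - ∑ i, c i ^ 2 := by
      intro x hx
      have h2 := dist_sq x c
      rw [hc x hx] at h2
      rw [h2, nsq, Fin.sum_univ_castSucc, inc_last]
      simp only [inc_castSucc]
      have h3 : ∀ i : Fin d, (x i - c i) ^ 2 = x i ^ 2 - 2 * (x i * c i) + c i ^ 2 := fun i => by ring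
      rw [sum_congr rfl fun i _ => h3 i, sum_add_distrib, sum_sub_distrib, ← mul_sum]
      ring
    have h2 : ∑ x : hX.toFinset, w x * ‖inc (x : Eu d)‖ ^ 2 =
        ρ ^ 2 + 2 * ∑ i, pro z i * c i - ∑ i, c i ^ 2 := by
      rw [Finset.sum_coe_sort hX.toFinset fun x => w x * ‖inc x‖ ^ 2]
      have h3 : ∀ x ∈ hX.toFinset, w x * ‖inc x‖ ^ 2 =
          w x * (ρ ^ 2 - ∑ i, c i ^ 2) + 2 * ∑ i, (w x * x i) * c i := by
        intro x hx
        rw [h1 x (hX.mem_toFinset.1 hx)]
        have h4 : ∑ i, (w x * x i) * c i = w x * ∑ i, x i * c i := by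
          rw [mul_sum]
          exact sum_congr rfl fun i _ => by ring
        rw [h4]
        ring
      rw [sum_congr rfl h3, sum_add_distrib, ← sum_mul, hw1, ← mul_sum, sum_comm]
      have h5 : ∀ i, ∑ x ∈ hX.toFinset, (w x * x i) * c i = pro z i * c i := by
        intro i
        rw [← sum_mul, ← hwp]
        congr 1
        simp [Finset.sum_apply]
      rw [sum_congr rfl fun i _ => h5 i]
      ring
    rw [h2]
    have h6 : ρ ^ 2 ≤ dist (inc c) z ^ 2 := by
      rw [dist_comm]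
      exact pow_le_pow_left₀ hρ hd 2
    rw [dist_inc] at h6
    have h7 : ∑ i, c i * pro z i = ∑ i, pro z i * c i := sum_congr rfl fun i _ => mul_comm _ _
    rw [h7] at h6
    linarith

end Pool.Agent.E8helper43.ER
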