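import Pool.Agent.E8helper43.ER.Stm

set_option autoImplicit false

/-!
# The main induction on the number of colours
-/

namespace Pool.Agent.E8helper43.ER

open Finset

/-- Ramsey for `r` colours -/
def RamC {ι : Type} (D : ι → ι → ℝ) (r : ℕ) : Prop :=
  ∃ N : ℕ, ∀ c : Eu N → Fin r, ∃ g : ι → Eu N,
    (∀ i j, dist (g i) (g j) ^ 2 = D i j) ∧ ∀ i j, c (g i) = c (g j)

theorem RamC.compactness {ι : Type} [Finite ι] {D : ι → ι → ℝ} {r : ℕ} (h : RamC D r) :
    ∃ (N : ℕ) (t : Finset (ι → Eu N)), (∀ g ∈ t, ∀ i j, dist (g i) (g j) ^ 2 = D i j) ∧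
      ∀ c : Eu N → Fin r, ∃ g ∈ t, ∀ i j, c (g i) = c (g j) := by
  classical
  obtain ⟨N, hN⟩ := h
  let I := {g : ι → Eu N // ∀ i j, dist (g i) (g j) ^ 2 = D i j}
  let U : I → Set (Eu N → Fin r) := fun g => {c | ∀ i j, c (g.1 i) = c (g.1 j)}
  have hU : ∀ g, IsOpen (U g) := by
    intro g
    have h1 : U g = ⋂ i, ⋂ j, {c : Eu N → Fin r | c (g.1 i) = c (g.1 j)} := by
      ext c
      simp only [U, Set.mem_ofPred_eq, Set.mem_iInter]
    rw [h1]
    refine isOpen_iInter_of_finite fun i => isOpen_iInter_of_finite fun j => ?_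
    have hcont : Continuous fun c : Eu N → Fin r => (c (g.1 i), c (g.1 j)) :=
      (continuous_apply (g.1 i)).prodMk (continuous_apply (g.1 j))
    have hop : IsOpen {p : Fin r × Fin r | p.1 = p.2} := isOpen_discrete _
    exact hop.preimage hcont
  have hcov : (Set.univ : Set (Eu N → Fin r)) ⊆ ⋃ g, U g := by
    intro c _
    obtain ⟨g, h1, h2⟩ := hN c
    exact Set.mem_iUnion.2 ⟨⟨g, h1⟩, h2⟩
  obtain ⟨t, ht⟩ := isCompact_univ.elim_finite_subcover U hU hcov
  refine ⟨N, t.image Subtype.val, ?_, ?_⟩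
  · intro g hg
    obtain ⟨g', -, rfl⟩ := mem_image.1 hg
    exact g'.2
  · intro c
    have h1 := ht (Set.mem_univ c)
    simp only [Set.mem_iUnion] at h1
    obtain ⟨g, hg, hc⟩ := h1
    exact ⟨g.1, mem_image.2 ⟨g, hg, rfl⟩, hc⟩

theorem dist_single {n : ℕ} (a b : Fin n) (h : ℝ) :
    dist (EuclideanSpace.single a h : Eu n) (EuclideanSpace.single b h) ^ 2 =
      if a = b then 0 else 2 * h ^ 2 := by
  by_cases hab : a = b
  · rw [if_pos hab, hab, dist_self]; norm_num
  · rw [if_neg hab, dist_sq]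
    have h1 : ∀ k, ((EuclideanSpace.single a h : Eu n) k - (EuclideanSpace.single b h : Eu n) k) ^ 2 =
        (if k = a then h ^ 2 else 0) + if k = b then h ^ 2 else 0 := by
      intro k
      rw [PiLp.single_apply, PiLp.single_apply]
      by_cases hi : k = a
      · have hj : k ≠ b := fun h => hab (hi.symm.trans h)
        rw [if_pos hi, if_neg hj, if_pos hi, if_neg hj, sub_zero, add_zero]
      · by_cases hj : k = b
        · rw [if_neg hi, if_pos hj, if_neg hi, if_pos hj, zero_sub, neg_sq, zero_add]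
        · rw [if_neg hi, if_neg hj, if_neg hi, if_neg hj]; simp
    rw [sum_congr rfl fun k _ => h1 k, sum_add_distrib, sum_ite_eq', sum_ite_eq']
    simp
    ring

theorem dist_single_zero {n : ℕ} (a : Fin n) (h : ℝ) :
    dist (EuclideanSpace.single a h : Eu n) 0 ^ 2 = h ^ 2 := by
  rw [dist_zero_right, PiLp.norm_single]
  exact sq_abs h

/-- the configuration with one more point -/
noncomputable def em {κ : Type} {d : ℕ} (φ : κ → Eu d) (z : Eu (d + 1)) : Option κ → Eu (d + 1) :=
  fun o => o.elim z fun x => inc (φ x)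

theorem dist_inc' {d : ℕ} (x : Eu d) (z : Eu (d + 1)) :
    dist (inc x) z ^ 2 = dist x (pro z) ^ 2 + z (Fin.last d) ^ 2 := by
  rw [dist_sq, dist_sq, Fin.sum_univ_castSucc, inc_last]
  simp only [inc_castSucc, pro_apply]
  ring

theorem step (hS : S_SPX) (hE : S_EXT) {κ : Type} [Finite κ] [Nonempty κ] {d : ℕ} (φ : κ → Eu d)
    (hX : Ram fun x y => dist (φ x) (φ y) ^ 2) (z : Eu (d + 1)) (hz : z (Fin.last d) ≠ 0) (r : ℕ)
    (hr : 0 < r) (ih : RamC (fun o o' => dist (em φ z o) (em φ z o') ^ 2) r) :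
    RamC (fun o o' => dist (em φ z o) (em φ z o') ^ 2) (r + 1) := by
  classical
  obtain ⟨N₁, t, ht, htc⟩ := ih.compactness
  set p := pro z with hp
  set h := z (Fin.last d) with hh
  let _ : Fintype κ := Fintype.ofFinite κ
  let ι := t × Option κ
  let g : ι → Eu N₁ := fun i => i.1.1 i.2
  have hne : Nonempty ι := by
    obtain ⟨τ, hτ, -⟩ := htc fun _ => ⟨0, hr⟩
    exact ⟨(⟨τ, hτ⟩, none)⟩
  have hB := hS ι N₁ g (2 * h ^ 2) (by positivity)
  have hP := (hX.comp (Prod.fst : κ × ι → κ)).add (hB.comp (Prod.snd : κ × ι → ι))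
  obtain ⟨N₂, hN₂⟩ := hP (r + 1)
  let q := Fintype.card ι
  let e : ι ≃ Fin q := Fintype.equivFin ι
  let m := d + (N₁ + q)
  let P0 : κ × ι → Eu m := fun a => app (φ a.1) (app (g a.2) (EuclideanSpace.single (e a.2) h))
  let Q0 : Eu N₁ → Eu m := fun y => app p (app y 0)
  have hPP : ∀ a b, dist (P0 a) (P0 b) ^ 2 = dist (φ a.1) (φ b.1) ^ 2 +
      (dist (g a.2) (g b.2) ^ 2 + if a.2 = b.2 then 0 else 2 * h ^ 2) := by
    intro a b
    show dist (app _ (app _ _)) (app _ (app _ _)) ^ 2 = _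
    rw [dist_app, dist_app, dist_single]
    simp only [e.injective.eq_iff]
  have hPQ : ∀ a y, dist (P0 a) (Q0 y) ^ 2 = dist (φ a.1) p ^ 2 + (dist (g a.2) y ^ 2 + h ^ 2) := by
    intro a y
    show dist (app _ (app _ _)) (app _ (app _ _)) ^ 2 = _
    rw [dist_app, dist_app, dist_single_zero]
  have hQQ : ∀ y y', dist (Q0 y) (Q0 y') ^ 2 = dist y y' ^ 2 := by
    intro y y'
    show dist (app _ (app _ _)) (app _ (app _ _)) ^ 2 = _
    rw [dist_app, dist_app, dist_self, dist_self]
    ring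
  refine ⟨N₂ + m, fun c => ?_⟩
  obtain ⟨P, hP1, hP2⟩ := hN₂ fun x => c (app x 0)
  have hdist : ∀ a b, dist (P a) (P b) = dist (P0 a) (P0 b) := by
    intro a b
    have h2 : dist (P a) (P b) ^ 2 = dist (φ a.1) (φ b.1) ^ 2 + (dist (g a.2) (g b.2) ^ 2 +
        @ite ℝ (a.2 = b.2) (Classical.propDecidable _) 0 (2 * h ^ 2)) := hP1 a b
    have h1 : dist (P a) (P b) ^ 2 = dist (P0 a) (P0 b) ^ 2 := by
      rw [h2, hPP]
      by_cases hab : a.2 = b.2
      · simp only [if_pos hab]
      · simp only [if_neg hab]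
    exact (pow_left_inj₀ dist_nonneg dist_nonneg two_ne_zero).1 h1
  obtain ⟨A, hA, hAP⟩ := hE (κ × ι) m N₂ P0 P hdist
  obtain ⟨x0⟩ := (inferInstance : Nonempty κ)
  obtain ⟨i0⟩ := hne
  set q0 : Fin (r + 1) := c (A (P0 (x0, i0))) with hq0
  have hcol : ∀ a, c (A (P0 a)) = q0 := by
    intro a
    rw [hq0, hAP, hAP]
    exact hP2 a (x0, i0)
  by_cases hcase : ∃ i : ι, c (A (Q0 (g i))) = q0
  · obtain ⟨i, hi⟩ := hcase
    refine ⟨fun o => o.elim (A (Q0 (g i))) fun x => A (P0 (x, i)), ?_, ?_⟩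
    · intro o o'
      cases o with
      | none =>
        cases o' with
        | none => simp
        | some y =>
          show dist (A (Q0 (g i))) (A (P0 (y, i))) ^ 2 = dist z (inc (φ y)) ^ 2
          rw [hA.dist_eq, dist_comm, hPQ, dist_comm z, dist_inc', dist_self]
          ring
      | some x =>
        cases o' with
        | none =>
          show dist (A (P0 (x, i))) (A (Q0 (g i))) ^ 2 = dist (inc (φ x)) z ^ 2
          rw [hA.dist_eq, hPQ, dist_inc', dist_self]
          ring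
        | some y =>
          show dist (A (P0 (x, i))) (A (P0 (y, i))) ^ 2 = dist (inc (φ x)) (inc (φ y)) ^ 2
          rw [hA.dist_eq, hPP, dist_inc_inc, dist_self, if_pos rfl]
          ring
    · have hall : ∀ o : Option κ, c (o.elim (A (Q0 (g i))) fun x => A (P0 (x, i))) = q0 := by
        intro o
        cases o with
        | none => exact hi
        | some x => exact hcol (x, i)
      intro o o'
      rw [hall o, hall o']
  · push Not at hcase
    let c1 : Eu N₁ → Fin r := fun y =>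
      if hy : ∃ j, q0.succAbove j = c (A (Q0 y)) then hy.choose else ⟨0, hr⟩
    have hc1 : ∀ i : ι, q0.succAbove (c1 (g i)) = c (A (Q0 (g i))) := by
      intro i
      have hy : ∃ j, q0.succAbove j = c (A (Q0 (g i))) := Fin.exists_succAbove_eq (hcase i)
      show q0.succAbove (if hy : ∃ j, q0.succAbove j = c (A (Q0 (g i))) then hy.choose else ⟨0, hr⟩) = _
      rw [dif_pos hy]
      exact hy.choose_spec
    obtain ⟨τ, hτ, hτc⟩ := htc c1
    refine ⟨fun o => A (Q0 (τ o)), ?_, ?_⟩
    · intro o o'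
      rw [hA.dist_eq, hQQ]
      exact ht τ hτ o o'
    · intro o o'
      have h1 : c (A (Q0 (τ o))) = q0.succAbove (c1 (τ o)) := (hc1 (⟨τ, hτ⟩, o)).symm
      have h2 : c (A (Q0 (τ o'))) = q0.succAbove (c1 (τ o')) := (hc1 (⟨τ, hτ⟩, o')).symm
      rw [h1, h2, hτc o o']

theorem all_colours (hS : S_SPX) (hE : S_EXT) {κ : Type} [Finite κ] [Nonempty κ] {d : ℕ}
    (φ : κ → Eu d) (hX : Ram fun x y => dist (φ x) (φ y) ^ 2) (z : Eu (d + 1))
    (hz : z (Fin.last d) ≠ 0) : Ram fun o o' => dist (em φ z o) (em φ z o') ^ 2 := by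
  intro r
  induction r with
  | zero => exact ⟨0, fun c => (c 0).elim0⟩
  | succ r ih =>
    rcases Nat.eq_zero_or_pos r with h0 | h0
    · subst h0
      refine ⟨d + 1, fun c => ⟨em φ z, fun _ _ => rfl, fun o o' => ?_⟩⟩
      have h1 := (c (em φ z o)).isLt
      have h2 := (c (em φ z o')).isLt
      exact Fin.ext (by omega)
    · exact step hS hE φ hX z hz r h0 ih

/-- **A Ramsey set together with a point off its hyperplane is Ramsey.** -/
theorem one_point (hS : S_SPX) (hE : S_EXT) {d : ℕ} {X : Set (Eu d)} (hX : X.Finite)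
    (hR : IsRamsey X) (z : Eu (d + 1)) (hz : z (Fin.last d) ≠ 0) : IsRamsey (ext X z) := by
  have := hX.to_subtype
  rw [← range_emb, isRamsey_range]
  rcases isEmpty_or_nonempty X with hemp | hne
  · have h1 := Ram.zero (Option X)
    have h2 : (fun i j : Option X => dist (emb X z i) (emb X z j) ^ 2) = fun _ _ => 0 := by
      funext i j
      cases i with
      | none =>
        cases j with
        | none => simp
        | some y => exact (hemp.false y).elim
      | some x => exact (hemp.false x).elim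
    rw [h2]
    exact h1
  · have h1 : Ram fun i j : X => dist (i : Eu d) j ^ 2 := by
      rw [← isRamsey_range (fun i : X => (i : Eu d)), Subtype.range_coe]
      exact hR
    exact all_colours hS hE (fun i : X => (i : Eu d)) h1 z hz

end Pool.Agent.E8helper43.ER
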