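import Mathlib

set_option autoImplicit false

/-!
# Euclidean Ramsey theory: sums of squared distance functions
-/

namespace Pool.Agent.E8helper43.ER

open Finset

/-- Euclidean space -/
abbrev Eu (n : ℕ) := EuclideanSpace ℝ (Fin n)

/-- `D` is (the square of) a Ramsey distance function on `ι` -/
def Ram {ι : Type} (D : ι → ι → ℝ) : Prop :=
  ∀ r : ℕ, ∃ N : ℕ, ∀ c : Eu N → Fin r, ∃ g : ι → Eu N,
    (∀ i j, dist (g i) (g j) ^ 2 = D i j) ∧ ∀ i j, c (g i) = c (g j)

theorem dist_sq {n : ℕ} (x y : Eu n) : dist x y ^ 2 = ∑ i, (x i - y i) ^ 2 := by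
  rw [EuclideanSpace.dist_eq, Real.sq_sqrt (sum_nonneg fun i _ => sq_nonneg _)]
  refine sum_congr rfl fun i _ => ?_
  rw [Real.dist_eq, sq_abs]

/-- finitely many copies suffice -/
theorem Ram.compactness {ι : Type} [Finite ι] {D : ι → ι → ℝ} (h : Ram D) (κ : Type) [Finite κ] :
    ∃ (N : ℕ) (t : Finset (ι → Eu N)), (∀ g ∈ t, ∀ i j, dist (g i) (g j) ^ 2 = D i j) ∧
      ∀ c : Eu N → κ, ∃ g ∈ t, ∀ i j, c (g i) = c (g j) := by
  classical
  obtain ⟨r, ⟨e⟩⟩ := Finite.exists_equiv_fin κ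
  obtain ⟨N, hN⟩ := h r
  let _ : TopologicalSpace κ := ⊥
  have _ : DiscreteTopology κ := ⟨rfl⟩
  have _ : CompactSpace κ := Finite.compactSpace
  let I := {g : ι → Eu N // ∀ i j, dist (g i) (g j) ^ 2 = D i j}
  let U : I → Set (Eu N → κ) := fun g => {c | ∀ i j, c (g.1 i) = c (g.1 j)}
  have hU : ∀ g, IsOpen (U g) := by
    intro g
    have h1 : U g = ⋂ i, ⋂ j, {c : Eu N → κ | c (g.1 i) = c (g.1 j)} := by
      ext c
      simp only [U, Set.mem_ofPred_eq, Set.mem_iInter]
    rw [h1]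
    refine isOpen_iInter_of_finite fun i => isOpen_iInter_of_finite fun j => ?_
    have hcont : Continuous fun c : Eu N → κ => (c (g.1 i), c (g.1 j)) :=
      (continuous_apply (g.1 i)).prodMk (continuous_apply (g.1 j))
    have hop : IsOpen {p : κ × κ | p.1 = p.2} := isOpen_discrete _
    exact hop.preimage hcont
  have hcov : (Set.univ : Set (Eu N → κ)) ⊆ ⋃ g, U g := by
    intro c _
    obtain ⟨g, h1, h2⟩ := hN fun x => e (c x)
    exact Set.mem_iUnion.2 ⟨⟨g, h1⟩, fun i j => e.injective (h2 i j)⟩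
  obtain ⟨t, ht⟩ := isCompact_univ.elim_finite_subcover U hU hcov
  refine ⟨N, t.image Subtype.val, ?_, ?_⟩
  · intro g hg
    obtain ⟨g', -, rfl⟩ := mem_image.1 hg
    exact g'.2
  · intro c
    have h1 := ht (Set.mem_univ c)
    simp only [Set.mem_iUnion] at h1
    obtain ⟨g, hg, hc⟩ := h1
    exact ⟨g.1, mem_image.2 ⟨g, hg, rfl⟩, hc⟩

/-- juxtaposition -/
noncomputable def app {m n : ℕ} (x : Eu m) (y : Eu n) : Eu (m + n) :=
  WithLp.toLp 2 (Fin.append (fun i => x i) (fun i => y i))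

theorem dist_app {m n : ℕ} (x x' : Eu m) (y y' : Eu n) :
    dist (app x y) (app x' y') ^ 2 = dist x x' ^ 2 + dist y y' ^ 2 := by
  rw [dist_sq, dist_sq, dist_sq, Fin.sum_univ_add]
  congr 1
  · refine sum_congr rfl fun i _ => ?_
    show (Fin.append _ _ (Fin.castAdd n i) - Fin.append _ _ (Fin.castAdd n i)) ^ 2 = _
    rw [Fin.append_left, Fin.append_left]
  · refine sum_congr rfl fun i _ => ?_
    show (Fin.append _ _ (Fin.natAdd m i) - Fin.append _ _ (Fin.natAdd m i)) ^ 2 = _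
    rw [Fin.append_right, Fin.append_right]

/-- **Product theorem.** -/
theorem Ram.add {ι : Type} [Finite ι] {D D' : ι → ι → ℝ} (h : Ram D) (h' : Ram D') :
    Ram fun i j => D i j + D' i j := by
  intro r
  rcases isEmpty_or_nonempty ι with hι | ⟨⟨i0⟩⟩
  · exact ⟨0, fun c => ⟨fun i => (hι.false i).elim, fun i => (hι.false i).elim,
      fun i => (hι.false i).elim⟩⟩
  obtain ⟨N, t, ht, hc⟩ := h.compactness (Fin r)
  obtain ⟨N', t', ht', hc'⟩ := h'.compactness (t → ι → Fin r)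
  refine ⟨N + N', fun c => ?_⟩
  obtain ⟨g', hg', hg2⟩ := hc' fun y g i => c (app (g.1 i) y)
  obtain ⟨g, hg, hg3⟩ := hc fun x => c (app x (g' i0))
  refine ⟨fun i => app (g i) (g' i), fun i j => ?_, ?_⟩
  · rw [dist_app, ht g hg, ht' g' hg']
  · have h1 : ∀ i, c (app (g i) (g' i)) = c (app (g i) (g' i0)) := by
      intro i
      exact congrFun (congrFun (hg2 i i0) ⟨g, hg⟩) i
    intro i j
    rw [h1 i, h1 j]
    exact hg3 i j

theorem Ram.smul {ι : Type} {D : ι → ι → ℝ} (h : Ram D) {w : ℝ} (hw : 0 ≤ w) :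
    Ram fun i j => w * D i j := by
  intro r
  obtain ⟨N, hN⟩ := h r
  refine ⟨N, fun c => ?_⟩
  obtain ⟨g, h1, h2⟩ := hN fun x => c (Real.sqrt w • x)
  refine ⟨fun i => Real.sqrt w • g i, fun i j => ?_, h2⟩
  rw [dist_smul₀, mul_pow, h1, Real.norm_of_nonneg (Real.sqrt_nonneg w), Real.sq_sqrt hw]

theorem Ram.comp {ι κ : Type} {D : κ → κ → ℝ} (h : Ram D) (f : ι → κ) :
    Ram fun i j => D (f i) (f j) := by
  intro r
  obtain ⟨N, hN⟩ := h r
  refine ⟨N, fun c => ?_⟩
  obtain ⟨g, h1, h2⟩ := hN c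
  exact ⟨fun i => g (f i), fun i j => h1 _ _, fun i j => h2 _ _⟩

theorem Ram.zero (ι : Type) : Ram fun _ _ : ι => (0 : ℝ) := by
  intro r
  exact ⟨0, fun c => ⟨fun _ => 0, fun _ _ => by simp, fun _ _ => rfl⟩⟩

/-- two points -/
theorem Ram.two {t : ℝ} (ht : 0 ≤ t) : Ram fun a b : Bool => if a = b then (0 : ℝ) else t := by
  intro r
  refine ⟨r + 1, fun c => ?_⟩
  let p : Fin (r + 1) → Eu (r + 1) := fun i => EuclideanSpace.single i (Real.sqrt (t / 2))
  obtain ⟨i, j, hij, hc⟩ := Fintype.exists_ne_map_eq_of_card_lt (fun i => c (p i)) (by simp)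
  have hd : ∀ i j : Fin (r + 1), i ≠ j → dist (p i) (p j) ^ 2 = t := by
    intro i j hij
    rw [dist_sq]
    have h1 : ∀ k, (p i k - p j k) ^ 2 = (if k = i then t / 2 else 0) + if k = j then t / 2 else 0 := by
      intro k
      show ((EuclideanSpace.single i (Real.sqrt (t / 2)) : Eu (r + 1)) k -
        (EuclideanSpace.single j (Real.sqrt (t / 2)) : Eu (r + 1)) k) ^ 2 = _
      rw [EuclideanSpace.single_apply, EuclideanSpace.single_apply]
      by_cases hi : k = i
      · have hj : k ≠ j := fun h => hij (hi.symm.trans h)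
        rw [if_pos hi, if_neg hj, if_pos hi, if_neg hj, sub_zero, add_zero,
          Real.sq_sqrt (by positivity)]
      · by_cases hj : k = j
        · rw [if_neg hi, if_pos hj, if_neg hi, if_pos hj, zero_sub, neg_sq, zero_add,
            Real.sq_sqrt (by positivity)]
        · rw [if_neg hi, if_neg hj, if_neg hi, if_neg hj]; simp
    rw [sum_congr rfl fun k _ => h1 k, sum_add_distrib, sum_ite_eq', sum_ite_eq']
    simp
  refine ⟨fun b => if b then p i else p j, ?_, ?_⟩
  · intro a b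
    cases a <;> cases b <;> simp [hd i j hij, hd j i hij.symm]
  · intro a b
    cases a <;> cases b <;> simp
    · exact hc.symm
    · exact hc

theorem Ram.sum {ι κ : Type} [Finite ι] (s : Finset κ) (w : κ → ℝ) (D : κ → ι → ι → ℝ)
    (hw : ∀ k ∈ s, 0 ≤ w k) (hD : ∀ k ∈ s, Ram (D k)) : Ram fun i j => ∑ k ∈ s, w k * D k i j := by
  classical
  induction s using Finset.induction_on with
  | empty => simpa using Ram.zero ι
  | insert a s ha ih =>
    simp only [sum_insert ha]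
    exact ((hD a (mem_insert_self a s)).smul (hw a (mem_insert_self a s))).add
      (ih (fun k hk => hw k (mem_insert_of_mem hk)) fun k hk => hD k (mem_insert_of_mem hk))

end Pool.Agent.E8helper43.ER
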