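import Pool.Agent.E8helper43.ER.Ext

set_option autoImplicit false

/-!
# Statements of the pieces
-/

namespace Pool.Agent.E8helper43.ER

open Finset

/-- Ramsey's theorem for `k`-subsets -/
def S_RAM : Prop :=
  ∀ k m r : ℕ, ∃ N : ℕ, ∀ c : Finset (Fin N) → Fin r, ∃ M : Finset (Fin N), M.card = m ∧
    ∀ K K' : Finset (Fin N), K ⊆ M → K' ⊆ M → K.card = k → K'.card = k → c K = c K'

/-- the distances of the shifts of a finite sequence `a` -/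
def shD (n k : ℕ) (a : ℕ → ℝ) (i j : ℕ) : ℝ :=
  ∑ l ∈ range (n + k), ((if i ≤ l then a (l - i) else 0) - (if j ≤ l then a (l - j) else 0)) ^ 2

/-- the set of the shifts is Ramsey -/
def S_SHIFT : Prop :=
  ∀ (n k : ℕ) (a : ℕ → ℝ), (∀ l, k ≤ l → a l = 0) → Ram fun i j : Fin (n + 1) => shD n k a i j

/-- tent functions -/
def S_TENT : Prop :=
  ∀ (n : ℕ) (ε : ℝ), 0 < ε → ∃ (k : ℕ) (a : ℕ → ℝ) (w : ℝ), 0 ≤ w ∧ (∀ l, k ≤ l → a l = 0) ∧
    ∀ i j : ℕ, i ≤ n → j ≤ n → |w * shD n k a i j - ((i : ℝ) - j) ^ 2| ≤ ε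

/-- approximation of finite sets of real numbers -/
def S_LINE : Prop :=
  ∀ (ι : Type) [Finite ι] (t : ι → ℝ) (ε : ℝ), 0 < ε → ∃ D : ι → ι → ℝ, Ram D ∧ (∀ i, D i i = 0) ∧
    (∀ i j, D i j = D j i) ∧ ∀ i j, |D i j - (t i - t j) ^ 2| ≤ ε

/-- almost regular simplices -/
def S_REG : Prop :=
  ∀ (ι : Type) [Fintype ι] (D : ι → ι → ℝ) (C : ℝ), 0 < C → (∀ i, D i i = 0) →
    (∀ i j, D i j = D j i) → (∀ i j, i ≠ j → |D i j - C| ≤ C / (4 * Fintype.card ι)) → Ram D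

open Classical in
/-- simplices -/
def S_SPX : Prop :=
  ∀ (ι : Type) [Fintype ι] (m : ℕ) (g : ι → Eu m) (η : ℝ), 0 < η →
    Ram fun i j : ι => dist (g i) (g j) ^ 2 + if i = j then 0 else η

/-- extension of isometries -/
def S_EXT : Prop :=
  ∀ (ι : Type) [Fintype ι] [Nonempty ι] (m N : ℕ) (φ : ι → Eu m) (ψ : ι → Eu N),
    (∀ i j, dist (ψ i) (ψ j) = dist (φ i) (φ j)) →
    ∃ A : Eu m → Eu (N + m), Isometry A ∧ ∀ i, A (φ i) = app (ψ i) 0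

end Pool.Agent.E8helper43.ER
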